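import Pool.Agent.X266.KEP.Data

/-!
# MP_0ca78d_co: `k`-edge-proper graphs with fewer than `(4 k - 9) n / (2 k - 4)` edges

For `16 ≤ k ≤ 23` and every `t ≥ 2` there is a `k`-edge-proper graph with `26 t` vertices and at most
`51 t < (4 k - 9) 26 t / (2 k - 4)` edges. So the conjectured bound is false for these `k`.

The graph is a cyclic chain of `t` copies of a graph (the unit) with the vertices `0, …, 26` and
`51 = 2 * 27 - 3` edges; vertex `26` of a copy is vertex `0` of the next one. The unit consists of three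
graphs which are put together in a cycle, each of them having one vertex in common with each of the two
others: two fans (a path with `9` vertices and a vertex joined to all of them; the first and the middle
vertex of the path are the common vertices, the last one is `0`, respectively `26`), and a double fan
with `10` vertices. In a fan alone the spokes in the middle are only in short cycles; here they are also in
the cycles which go through all three graphs. Every edge of the unit is in cycles of the lengths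
`3, …, 23` and in a Hamiltonian path from `0` to `26`.
-/

set_option autoImplicit false

namespace Pool.Agent.Results.MP_0ca78d_co.SparseEdgeProper

open Pool.Agent.X266.KEP

/-- `e` is an edge of a cycle of length `i` of `G` (for `i ≥ 3`): a closed walk
`f 0, f 1, …, f i = f 0` with `f 0, …, f (i - 1)` distinct, of which `e` is a step. -/
def InCycle {V : Type} (G : SimpleGraph V) (i : ℕ) (e : Sym2 V) : Prop :=
  ∃ f : ℕ → V, Set.InjOn f (Set.Iio i) ∧ f i = f 0 ∧ (∀ j < i, G.Adj (f j) (f (j + 1))) ∧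
    ∃ j < i, s(f j, f (j + 1)) = e

/-- `G` has an edge, and every edge of `G` is in a cycle of length `i` for every `3 ≤ i ≤ k` and in a
Hamilton cycle. -/
def EdgeProper {V : Type} [Fintype V] (k : ℕ) (G : SimpleGraph V) : Prop :=
  G.edgeSet.Nonempty ∧ ∀ e ∈ G.edgeSet,
    (∀ i, 3 ≤ i → i ≤ k → InCycle G i e) ∧ InCycle G (Fintype.card V) e

/-- the conjectured bound for `k` -/
def Bound (k : ℕ) : Prop :=
  ∃ n₀ : ℕ, ∀ (V : Type) (_ : Fintype V) (G : SimpleGraph V), n₀ ≤ Fintype.card V →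
    EdgeProper k G →
      ⌈((4 * k - 9) * (Fintype.card V) / (2 * k - 4) : ℚ)⌉ ≤ (G.edgeSet.ncard : ℤ)

/-- vertex `a ≤ 26` of the copy `i` -/
def ph (t : ℕ) (i : ZMod t) (a : ℕ) : ZMod t × Fin 26 :=
  (if a = 26 then i + 1 else i, Fin.ofNat 26 a)

theorem ph_inj {t : ℕ} (ht : 2 ≤ t) (i : ZMod t) {a b : ℕ} (ha : a < 27) (hb : b < 27)
    (h : ph t i a = ph t i b) : a = b := by
  have : Fact (1 < t) := ⟨by omega⟩
  unfold ph at h
  rw [Prod.mk.injEq] at h
  obtain ⟨h1, h2⟩ := h
  have h3 : a % 26 = b % 26 := by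
    have := congrArg Fin.val h2
    simpa [Fin.ofNat] using this
  have h4 : i + 1 ≠ i := by
    intro h
    have : (1 : ZMod t) = 0 := by
      have h' := congrArg (fun x => x - i) h
      simp at h'
    exact one_ne_zero this
  by_cases ha' : a = 26
  · by_cases hb' : b = 26
    · omega
    · rw [if_pos ha', if_neg hb'] at h1
      exact absurd h1 h4
  · by_cases hb' : b = 26
    · rw [if_neg ha', if_pos hb'] at h1
      exact absurd h1.symm h4
    · omega

/-- the cyclic chain of `t` units -/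
def Gr (t : ℕ) : SimpleGraph (ZMod t × Fin 26) :=
  SimpleGraph.fromRel fun p q => ∃ i : ZMod t, ∃ e ∈ EU, ph t i e.1 = p ∧ ph t i e.2 = q

theorem adj_of {t : ℕ} (ht : 2 ≤ t) (i : ZMod t) {a b : ℕ} (ha : a < 27) (hb : b < 27)
    (h : adjb a b = true) : (Gr t).Adj (ph t i a) (ph t i b) := by
  have hc := adj_check
  rw [List.all_eq_true] at hc
  have h1 := hc a (List.mem_range.2 ha)
  rw [List.all_eq_true] at h1
  have h2 := h1 b (List.mem_range.2 hb)
  rw [h] at h2
  simp only [Bool.not_true, Bool.false_or, Bool.and_eq_true, bne_iff_ne, ne_eq, Bool.or_eq_true,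
    decide_eq_true_eq] at h2
  unfold Gr
  rw [SimpleGraph.fromRel_adj]
  refine ⟨fun h' => h2.1 (ph_inj ht i ha hb h'), ?_⟩
  rcases h2.2 with h3 | h3
  · exact Or.inl ⟨i, (a, b), h3, rfl, rfl⟩
  · exact Or.inr ⟨i, (b, a), h3, rfl, rfl⟩

theorem edge_iff {t : ℕ} {e : Sym2 (ZMod t × Fin 26)} (he : e ∈ (Gr t).edgeSet) :
    ∃ i : ZMod t, ∃ n < 51, e = s(ph t i (EU.getD n (0, 0)).1, ph t i (EU.getD n (0, 0)).2) := by
  induction e with
  | _ p q =>
  rw [SimpleGraph.mem_edgeSet, Gr, SimpleGraph.fromRel_adj] at he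
  have key : ∀ x ∈ EU, ∃ n < 51, EU.getD n (0, 0) = x := by
    intro x hx
    obtain ⟨n, hn, hx'⟩ := List.mem_iff_getElem.1 hx
    refine ⟨n, by rw [← len_check]; exact hn, ?_⟩
    rw [List.getD_eq_getElem _ _ hn]
    exact hx'
  rcases he.2 with ⟨i, x, hx, h1, h2⟩ | ⟨i, x, hx, h1, h2⟩
  · obtain ⟨n, hn, hx'⟩ := key x hx
    exact ⟨i, n, hn, by rw [hx', h1, h2]⟩
  · obtain ⟨n, hn, hx'⟩ := key x hx
    exact ⟨i, n, hn, by rw [hx', h1, h2]; exact Sym2.eq_swap⟩

theorem seq_lt {m l : ℕ} (h : seqOK m l = true) {j : ℕ} (hj : j < l) : d m j < 27 := by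
  unfold seqOK at h
  rw [List.all_eq_true] at h
  have h1 := h j (List.mem_range.2 hj)
  simp only [Bool.and_eq_true, decide_eq_true_eq] at h1
  exact h1.1

theorem seq_inj {m l : ℕ} (h : seqOK m l = true) {i j : ℕ} (hi : i < l) (hj : j < l)
    (hij : d m i = d m j) : i = j := by
  have key : ∀ i j : ℕ, j < l → i < j → d m i ≠ d m j := by
    intro i j hj hij
    unfold seqOK at h
    rw [List.all_eq_true] at h
    have h1 := h j (List.mem_range.2 hj)
    simp only [Bool.and_eq_true, decide_eq_true_eq] at h1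
    have h2 := h1.2
    rw [List.all_eq_true] at h2
    have h3 := h2 i (List.mem_range.2 hij)
    simpa using h3
  rcases lt_trichotomy i j with h1 | h1 | h1
  · exact absurd hij (key i j hj h1)
  · exact h1
  · exact absurd hij.symm (key j i hi h1)

theorem adj_seq {m l : ℕ} (h : adjOK m l = true) {j : ℕ} (hj : j + 1 < l) :
    adjb (d m j) (d m (j + 1)) = true := by
  unfold adjOK at h
  rw [List.all_eq_true] at h
  exact h j (List.mem_range.2 (by omega))

theorem local_cycle {t : ℕ} (ht : 2 ≤ t) (i : ZMod t) {a b m l : ℕ} (hl : 3 ≤ l)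
    (h : cycOK a b m l = true) : InCycle (Gr t) l s(ph t i a, ph t i b) := by
  unfold cycOK at h
  simp only [Bool.and_eq_true, beq_iff_eq] at h
  obtain ⟨⟨⟨⟨h1, h2⟩, h3⟩, h4⟩, h5⟩ := h
  refine ⟨fun j => ph t i (d m (j % l)), ?_, ?_, ?_, l - 1, by omega, ?_⟩
  · intro x hx y hy hxy
    have hx' : x < l := hx
    have hy' : y < l := hy
    have h6 := ph_inj ht i (seq_lt h1 (Nat.mod_lt _ (by omega)))
      (seq_lt h1 (Nat.mod_lt _ (by omega))) hxy
    have h7 := seq_inj h1 (Nat.mod_lt _ (by omega)) (Nat.mod_lt _ (by omega)) h6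
    rwa [Nat.mod_eq_of_lt hx', Nat.mod_eq_of_lt hy'] at h7
  · simp
  · intro j hj
    show (Gr t).Adj (ph t i (d m (j % l))) (ph t i (d m ((j + 1) % l)))
    rw [Nat.mod_eq_of_lt hj]
    by_cases hj' : j + 1 < l
    · rw [Nat.mod_eq_of_lt hj']
      exact adj_of ht i (seq_lt h1 hj) (seq_lt h1 hj') (adj_seq h2 hj')
    · have : j + 1 = l := by omega
      rw [this, Nat.mod_self]
      have h8 : j = l - 1 := by omega
      rw [h8, h5, h4]
      exact adj_of ht i (by rw [← h5]; exact seq_lt h1 (by omega))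
        (by rw [← h4]; exact seq_lt h1 (by omega)) h3
  · show s(ph t i (d m ((l - 1) % l)), ph t i (d m ((l - 1 + 1) % l))) = _
    have h6 : l - 1 + 1 = l := by omega
    rw [h6, Nat.mod_self, Nat.mod_eq_of_lt (by omega : l - 1 < l), h4, h5]
    exact Sym2.eq_swap

/-- the Hamilton cycle given by the Hamiltonian path with the code `m` -/
def hf (t m n : ℕ) : ZMod t × Fin 26 := ph t ((n / 26 : ℕ) : ZMod t) (d m (n % 26))

theorem hf_eq {t m : ℕ} (h0 : d m 0 = 0) (h26 : d m 26 = 26) (q r : ℕ) (hr : r < 27) :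
    hf t m (26 * q + r) = ph t (q : ZMod t) (d m r) := by
  unfold hf
  by_cases h : r < 26
  · have h1 : (26 * q + r) / 26 = q := by omega
    have h2 : (26 * q + r) % 26 = r := by omega
    rw [h1, h2]
  · have h3 : r = 26 := by omega
    subst h3
    have h1 : (26 * q + 26) / 26 = q + 1 := by omega
    have h2 : (26 * q + 26) % 26 = 0 := by omega
    rw [h1, h2, h0, h26]
    unfold ph
    simp [Fin.ofNat]

theorem ham_cycle {t : ℕ} (ht : 2 ≤ t) (i : ZMod t) {a b m p : ℕ} (h : hamOK a b m p = true) :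
    InCycle (Gr t) (26 * t) s(ph t i a, ph t i b) := by
  have : NeZero t := ⟨by omega⟩
  unfold hamOK at h
  simp only [Bool.and_eq_true, beq_iff_eq, Bool.or_eq_true, decide_eq_true_eq] at h
  obtain ⟨⟨⟨⟨⟨h1, h2⟩, h3⟩, h4⟩, h5⟩, h6⟩ := h
  have hd26 : ∀ r, r < 26 → d m r < 26 := by
    intro r hr
    have h7 := seq_lt h1 (show r < 27 by omega)
    have h8 : d m r ≠ 26 := by
      intro h9
      have := seq_inj h1 (show r < 27 by omega) (show 26 < 27 by omega) (h9.trans h4.symm)
      omega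
    omega
  have hdec : ∀ n : ℕ, 26 * (n / 26) + n % 26 = n := fun n => by omega
  refine ⟨hf t m, ?_, ?_, ?_, 26 * i.val + p, ?_, ?_⟩
  · intro x hx y hy hxy
    have hx' : x < 26 * t := hx
    have hy' : y < 26 * t := hy
    unfold hf ph at hxy
    have hx2 := hd26 (x % 26) (Nat.mod_lt _ (by omega))
    have hy2 := hd26 (y % 26) (Nat.mod_lt _ (by omega))
    rw [if_neg (by omega), if_neg (by omega), Prod.mk.injEq] at hxy
    obtain ⟨h7, h8⟩ := hxy
    have h9 : d m (x % 26) % 26 = d m (y % 26) % 26 := by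
      have := congrArg Fin.val h8
      simpa [Fin.ofNat] using this
    rw [Nat.mod_eq_of_lt hx2, Nat.mod_eq_of_lt hy2] at h9
    have h10 := seq_inj h1 (by omega) (by omega) h9
    have h11 : x / 26 = y / 26 := by
      have h12 := (ZMod.natCast_eq_natCast_iff' _ _ _).1 h7
      rwa [Nat.mod_eq_of_lt (by omega), Nat.mod_eq_of_lt (by omega)] at h12
    have := hdec x
    have := hdec y
    omega
  · have e1 := hf_eq (t := t) h3 h4 t 0 (by omega)
    have e2 := hf_eq (t := t) h3 h4 0 0 (by omega)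
    rw [add_zero] at e1
    rw [mul_zero, add_zero] at e2
    rw [e1, e2, ZMod.natCast_self, Nat.cast_zero]
  · intro j hj
    have e1 := hf_eq (t := t) h3 h4 (j / 26) (j % 26) (by omega)
    have e2 := hf_eq (t := t) h3 h4 (j / 26) (j % 26 + 1) (by omega)
    rw [hdec] at e1
    rw [← add_assoc, hdec] at e2
    rw [e1, e2]
    exact adj_of ht _ (seq_lt h1 (by omega)) (seq_lt h1 (by omega)) (adj_seq h2 (by omega))
  · have := ZMod.val_lt i
    omega
  · have e1 := hf_eq (t := t) h3 h4 i.val p (by omega)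
    have e2 := hf_eq (t := t) h3 h4 i.val (p + 1) (by omega)
    rw [← add_assoc] at e2
    rw [e1, e2, ZMod.natCast_zmod_val]
    rcases h6 with ⟨h7, h8⟩ | ⟨h7, h8⟩
    · rw [h7, h8]
    · rw [h7, h8]
      exact Sym2.eq_swap

theorem card_V (t : ℕ) [NeZero t] : Fintype.card (ZMod t × Fin 26) = 26 * t := by
  rw [Fintype.card_prod, ZMod.card, Fintype.card_fin, mul_comm]

theorem proper {t k : ℕ} [NeZero t] (ht : 2 ≤ t) (hk : k ≤ 23) : EdgeProper k (Gr t) := by
  constructor
  · refine ⟨s(ph t 0 0, ph t 0 1), ?_⟩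
    rw [SimpleGraph.mem_edgeSet]
    exact adj_of ht 0 (by omega) (by omega) (by decide +kernel)
  · intro e he
    obtain ⟨i, n, hn, rfl⟩ := edge_iff he
    constructor
    · intro l hl hlk
      have hc := cyc_check
      rw [List.all_eq_true] at hc
      have h1 := hc n (List.mem_range.2 hn)
      rw [List.all_eq_true] at h1
      have h2 := h1 (l - 3) (List.mem_range.2 (by omega))
      have h3 : l - 3 + 3 = l := by omega
      rw [h3] at h2
      exact local_cycle ht i hl h2
    · have hc := ham_check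
      rw [List.all_eq_true] at hc
      have h1 := hc n (List.mem_range.2 hn)
      rw [card_V]
      exact ham_cycle ht i h1

theorem few_edges (t : ℕ) [NeZero t] : (Gr t).edgeSet.ncard ≤ 51 * t := by
  classical
  have hsub : (Gr t).edgeSet ⊆
      ((Finset.univ ×ˢ Finset.range 51 : Finset (ZMod t × ℕ)).image fun x =>
        s(ph t x.1 (EU.getD x.2 (0, 0)).1, ph t x.1 (EU.getD x.2 (0, 0)).2) : Finset _) := by
    intro e he
    obtain ⟨i, n, hn, rfl⟩ := edge_iff he
    rw [Finset.mem_coe, Finset.mem_image]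
    exact ⟨(i, n), by simp [hn], rfl⟩
  refine (Set.ncard_le_ncard hsub (Finset.finite_toSet _)).trans ?_
  rw [Set.ncard_coe_finset]
  refine Finset.card_image_le.trans ?_
  rw [Finset.card_product, Finset.card_univ, ZMod.card, Finset.card_range, mul_comm]

theorem arith {k t : ℕ} (hk : 16 ≤ k) (ht : 2 ≤ t) :
    (51 * t : ℚ) < (4 * k - 9) * (26 * t) / (2 * k - 4) := by
  have hk' : (16 : ℚ) ≤ k := by exact_mod_cast hk
  have ht' : (2 : ℚ) ≤ t := by exact_mod_cast ht
  rw [lt_div_iff₀ (by linarith)]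
  nlinarith

/-- For `16 ≤ k ≤ 23` and every `t ≥ 2` there is a `k`-edge-proper graph with `26 t` vertices and at
most `51 t` edges, which is less than `(4 k - 9) 26 t / (2 k - 4)`. So the bound
`⌈(4 k - 9) n / (2 k - 4)⌉` for large `n` is false for `16 ≤ k ≤ 23`; in particular it does not hold
for all `k ≥ 5`. -/
theorem result :
    (∀ k t : ℕ, 16 ≤ k → k ≤ 23 → 2 ≤ t →
      ∃ (V : Type) (_ : Fintype V) (G : SimpleGraph V), Fintype.card V = 26 * t ∧
        EdgeProper k G ∧ G.edgeSet.ncard ≤ 51 * t ∧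
        (51 * t : ℚ) < (4 * k - 9) * (26 * t) / (2 * k - 4)) ∧
    (∀ k : ℕ, 16 ≤ k → k ≤ 23 → ¬ Bound k) ∧ ¬ ∀ k : ℕ, 5 ≤ k → Bound k := by
  have main : ∀ k t : ℕ, 16 ≤ k → k ≤ 23 → 2 ≤ t →
      ∃ (V : Type) (_ : Fintype V) (G : SimpleGraph V), Fintype.card V = 26 * t ∧
        EdgeProper k G ∧ G.edgeSet.ncard ≤ 51 * t ∧
        (51 * t : ℚ) < (4 * k - 9) * (26 * t) / (2 * k - 4) := by
    intro k t hk1 hk2 ht
    have : NeZero t := ⟨by omega⟩
    exact ⟨ZMod t × Fin 26, inferInstance, Gr t, card_V t, proper ht hk2, few_edges t,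
      arith hk1 ht⟩
  have second : ∀ k : ℕ, 16 ≤ k → k ≤ 23 → ¬ Bound k := by
    rintro k hk1 hk2 ⟨n₀, h⟩
    obtain ⟨V, hV, G, h1, h2, h3, h4⟩ := main k (n₀ + 2) hk1 hk2 (by omega)
    have h5 := h V hV G (by rw [h1]; omega) h2
    have h6 : ((4 * k - 9) * (Fintype.card V) / (2 * k - 4) : ℚ) ≤ (G.edgeSet.ncard : ℤ) :=
      (Int.le_ceil _).trans (by exact_mod_cast h5)
    rw [h1] at h6
    have h7 : (G.edgeSet.ncard : ℚ) ≤ 51 * ((n₀ + 2 : ℕ) : ℚ) := by exact_mod_cast h3
    push_cast at h4 h6 h7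
    linarith
  exact ⟨main, second, fun h => second 16 le_rfl (by norm_num) (h 16 (by norm_num))⟩

end Pool.Agent.Results.MP_0ca78d_co.SparseEdgeProper
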